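import Pool.Agent.X182.PD.D

/-!
# MP_8f0a23_co, Q1: the entropy function `s_W` need not be analytic on the interior of `E_W`.

For `W = (100, 011)` the point `(1/8, 1/8)` lies in the interior of `E_W`, and `s_W` is not even
differentiable there.  Definitions (file `Pool/Agent/X182/PD/A.lean`): `Adm f` says `f` is
measurable with values in `[0,1]` on `[0,1]`; `dens w f` is the pattern density
`m! ∫_{0 ≤ x_1 < ... < x_m ≤ 1} ∏ g_i(x_i) dx`; `Ent f = ∫_0^1 S(f(x)) dx`;
`feasible W` is the set `E_W ⊆ ℝ^k`; `entFn W` is the entropy function `s_W`.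
-/

open Set

namespace Pool.Agent.Results.MP_8f0a23_co.EntropyNotAnalytic

open Pool.Agent.X182.PD

/-- The statement asked about in Q1. -/
def EntropyAlwaysAnalytic : Prop :=
  ∀ (k : ℕ) (W : Fin k → List Bool), Function.Injective W → (∀ i, W i ≠ []) →
    AnalyticOnNhd ℝ (entFn W) (interior (feasible W))

/-- For the list `W = (100, 011)` of distinct binary words, the point `(1/8, 1/8)` is an interior
point of the feasibility set `E_W`, and the entropy function `s_W` is not differentiable at this
point; in particular it is not real-analytic on any neighbourhood of it, and the answer to Q1 is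
negative.  (Quantitatively, `s_W(1/8,1/8) = log 2` and `s_W(δ) ≤ log 2 - |δ_1 + δ_2 - 1/4| / 18`
on all of `E_W`.) -/
theorem result :
    Function.Injective (![[true, false, false], [false, true, true]] : Fin 2 → List Bool) ∧
    (fun _ : Fin 2 => (1 / 8 : ℝ)) ∈
      interior (feasible (![[true, false, false], [false, true, true]] : Fin 2 → List Bool)) ∧
    ¬ DifferentiableAt ℝ
      (entFn (![[true, false, false], [false, true, true]] : Fin 2 → List Bool))
      (fun _ : Fin 2 => (1 / 8 : ℝ)) ∧
    (∀ U : Set (Fin 2 → ℝ), (fun _ : Fin 2 => (1 / 8 : ℝ)) ∈ U →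
      ¬ AnalyticOnNhd ℝ
        (entFn (![[true, false, false], [false, true, true]] : Fin 2 → List Bool)) U) ∧
    entFn (![[true, false, false], [false, true, true]] : Fin 2 → List Bool)
      (fun _ : Fin 2 => (1 / 8 : ℝ)) = Real.log 2 ∧
    (∀ δ ∈ feasible (![[true, false, false], [false, true, true]] : Fin 2 → List Bool),
      entFn (![[true, false, false], [false, true, true]] : Fin 2 → List Bool) δ ≤
        Real.log 2 - |δ 0 + δ 1 - 1 / 4| / 18) ∧
    ¬ EntropyAlwaysAnalytic := by
  have hinj : Function.Injective (![[true, false, false], [false, true, true]] : Fin 2 → List Bool) := by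
    intro i j h
    fin_cases i <;> fin_cases j <;> simp_all
  have hU : ∀ U : Set (Fin 2 → ℝ), (fun _ : Fin 2 => (1 / 8 : ℝ)) ∈ U →
      ¬ AnalyticOnNhd ℝ
        (entFn (![[true, false, false], [false, true, true]] : Fin 2 → List Bool)) U :=
    fun U hU h => not_diff (h _ hU).differentiableAt
  refine ⟨hinj, pt_interior, not_diff, hU, entFn_pt, fun δ hδ => entFn_le hδ, fun h => ?_⟩
  refine hU _ pt_interior (h 2 _ hinj ?_)
  intro i
  fin_cases i <;> simp

end Pool.Agent.Results.MP_8f0a23_co.EntropyNotAnalytic
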